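import Mathlib
import Pool.Agent.Y396.RN.Near

/-!
# MP_75c8a4_co: `k² exp (-29 √(log k)) ≤ n_k ≤ 10 k⁵`
-/

set_option autoImplicit false

namespace Pool.Agent.Results.MP_75c8a4_co.NearlyQuadraticLower

/-- the Euclidean plane -/
abbrev Plane := EuclideanSpace ℝ (Fin 2)

/-- the points of `T` lie on a common circle of radius `r` -/
def HasRadius (T : Finset Plane) (r : ℝ) : Prop :=
  ∃ c : Plane, (T : Set Plane) ⊆ Metric.sphere c r

/-- general position: no three points collinear, no four points on a circle -/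
def GenPos (X : Finset Plane) : Prop :=
  (∀ T ⊆ X, T.card = 3 → ¬ Collinear ℝ (T : Set Plane)) ∧
  (∀ T ⊆ X, T.card = 4 → ¬ ∃ (c : Plane) (r : ℝ), (T : Set Plane) ⊆ Metric.sphere c r)

/-- different triples of points of `Y` never lie on circles of the same radius -/
def DistinctRadii (Y : Finset Plane) : Prop :=
  ∀ S ⊆ Y, ∀ T ⊆ Y, S.card = 3 → T.card = 3 → ∀ r, HasRadius S r → HasRadius T r → S = T

/-- the least `m` such that every `m`-point set in general position contains a `k`-point subset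
with pairwise distinct circumradii -/
noncomputable def nk (k : ℕ) : ℕ :=
  sInf {m | ∀ X : Finset Plane, X.card = m → GenPos X → ∃ Y ⊆ X, Y.card = k ∧ DistinctRadii Y}

/-- For every `k ≥ 3` the number `nk k` is a minimum (it has its defining property), and
`k ^ 2 * exp (-29 √(log k)) ≤ nk k ≤ 10 k ^ 5`. -/
theorem result (k : ℕ) (hk : 3 ≤ k) :
    (∀ X : Finset Plane, X.card = nk k → GenPos X → ∃ Y ⊆ X, Y.card = k ∧ DistinctRadii Y) ∧
    (k : ℝ) ^ 2 * Real.exp (-(29 * √(Real.log k))) ≤ nk k ∧ nk k ≤ 10 * k ^ 5 :=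
  ⟨Pool.Agent.Helper543.RadiiLow.nk_spec k (by omega), Pool.Agent.Y396.RN.nk_geC k hk,
    Pool.Agent.Helper543.RadiiLow.nk_le k (by omega)⟩

end Pool.Agent.Results.MP_75c8a4_co.NearlyQuadraticLower
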